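import Pool.Agent.VMX.StmtsF

set_option autoImplicit false

/-! Row MAP of the squad VMX: raising all vertices except `j`. -/

open Matrix Filter Topology

namespace Pool.Agent.VMX.H61

open Pool.Agent.PFS Pool.Agent.PFJ Pool.Agent.NBT Pool.Agent.VMX

variable {n : ℕ} {C : Set (V n)} {Γ : Subgroup (GL (Fin n) ℝ)}

/-- uniform comparison of a combination of eigenvectors with its image -/
theorem comp_unif (h : CC C Γ) {g : GL (Fin n) ℝ} {s : ℝ} (hs : 0 < s) {r : ℕ}
    (lam : Fin r → ℝ) (q : Fin r → V n) (hq : ∀ i, 0 < lam i ∧ Eg C Γ g s (lam i) (q i)) :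
    ∃ M : ℝ, ∀ c : Fin r → ℝ, (∀ i, 0 ≤ c i) →
      M • (∑ i, c i • q i) - act g (∑ i, c i • q i) ∈ closure C ∧
      M • act g (∑ i, c i • q i) - (∑ i, c i • q i) ∈ closure C := by
  have hqc : ∀ i, q i ∈ closure C := fun i => h.hul.lamCl _ (hq i).2.1
  have hqa : ∀ i, act g (q i) = (lam i / s) • q i := by
    intro i
    have h2 := (hq i).2.2
    have h3 : act g (q i) = s⁻¹ • (s • act g (q i)) := by
      rw [smul_smul, inv_mul_cancel₀ hs.ne', one_smul]
    rw [h3, h2, smul_smul, div_eq_inv_mul]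
  have hl : ∀ i, 0 < lam i := fun i => (hq i).1
  set M1 : ℝ := ∑ i, lam i / s with hM1
  set M2 : ℝ := ∑ i, s / lam i with hM2
  have hM1i : ∀ i, lam i / s ≤ M1 := fun i =>
    Finset.single_le_sum (f := fun i => lam i / s) (fun j _ => (div_pos (hl j) hs).le)
      (Finset.mem_univ i)
  have hM2i : ∀ i, s / lam i ≤ M2 := fun i =>
    Finset.single_le_sum (f := fun i => s / lam i) (fun j _ => (div_pos hs (hl j)).le)
      (Finset.mem_univ i)
  have hM10 : 0 ≤ M1 := Finset.sum_nonneg fun j _ => (div_pos (hl j) hs).le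
  have hM20 : 0 ≤ M2 := Finset.sum_nonneg fun j _ => (div_pos hs (hl j)).le
  refine ⟨M1 + M2, fun c hc => ⟨?_, ?_⟩⟩
  · have e : (M1 + M2) • (∑ i, c i • q i) - act g (∑ i, c i • q i) =
        ∑ i, ((M1 + M2 - lam i / s) * c i) • q i := by
      rw [CC.act_sum, Finset.smul_sum, ← Finset.sum_sub_distrib]
      refine Finset.sum_congr rfl (fun i _ => ?_)
      rw [CC.act_smul, hqa, smul_smul, smul_smul, ← sub_smul]
      congr 1
      ring
    rw [e]
    refine h.cl_sum fun i _ => h.cl_smul (hqc i) (mul_nonneg ?_ (hc i))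
    have := hM1i i
    linarith
  · have e : (M1 + M2) • act g (∑ i, c i • q i) - (∑ i, c i • q i) =
        ∑ i, (((M1 + M2) * (lam i / s) - 1) * c i) • q i := by
      rw [CC.act_sum, Finset.smul_sum, ← Finset.sum_sub_distrib]
      refine Finset.sum_congr rfl (fun i _ => ?_)
      rw [CC.act_smul, hqa, smul_smul, smul_smul, ← sub_smul]
      congr 1
      ring
    rw [e]
    refine h.cl_sum fun i _ => h.cl_smul (hqc i) (mul_nonneg ?_ (hc i))
    have h5 : s / lam i ≤ M1 + M2 := by
      have := hM2i i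
      linarith
    have h6 : (s / lam i) * (lam i / s) = 1 := by
      have := (hl i).ne'
      field_simp
    have h7 := mul_le_mul_of_nonneg_right h5 (div_pos (hl i) hs).le
    linarith

theorem map (hSbg : SbgStmt) (hLop : LopStmt) : MapStmt := by
  intro n C Γ h g hg s r lam q hs hq hpes j
  classical
  have hqL : ∀ i, q i ∈ LamC C Γ := fun i => (hq i).2.1
  have hqc : ∀ i, q i ∈ closure C := fun i => h.hul.lamCl _ (hqL i)
  have hqH : ∀ i, q i ∈ Hull C Γ := fun i => h.hul.lamHull _ (hqL i)
  have hf : ∑ i, q i ∈ C := hpes.1.sum_mem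
  obtain ⟨M, hM⟩ := comp_unif h hs lam q hq
  set c : ℕ → Fin r → ℝ := fun m i => if i = j then 1 else (m : ℝ) + 1 with hc
  have hcpos : ∀ m i, 0 < c m i := fun m i => by
    rw [hc]
    dsimp only
    split_ifs <;> positivity
  have hc1 : ∀ m i, 1 ≤ c m i := fun m i => by
    rw [hc]
    dsimp only
    split_ifs
    · exact le_refl _
    · have : (0 : ℝ) ≤ m := Nat.cast_nonneg m
      linarith
  set x : ℕ → V n := fun m => ∑ i, c m i • q i with hx
  have hxC : ∀ m, x m ∈ C := fun m => hpes.1.pos _ (hcpos m)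
  have hxH : ∀ m, x m ∈ Hull C Γ := fun m =>
    Finset.sum_induction_nonempty (fun i => c m i • q i) (fun v => v ∈ Hull C Γ)
      (fun a b ha hb => h.hul.add a ha b hb) ⟨j, Finset.mem_univ j⟩
      (fun i _ => h.hul.smul _ (hqH i) _ (hcpos m i))
  obtain ⟨φ, γ, t, xi, hφ, hγ, hγg, ht, hxi, hlim⟩ := hSbg n C Γ h g hg x M hxC hxH
    (fun m => (hM (c m) (fun i => (hcpos m i).le)).1)
    (fun m => (hM (c m) (fun i => (hcpos m i).le)).2)
  have hxf : ∀ m, x m - ∑ i, q i ∈ closure C := fun m => by
    have e : x m - ∑ i, q i = ∑ i, (c m i - 1) • q i := by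
      rw [hx, ← Finset.sum_sub_distrib]
      exact Finset.sum_congr rfl (fun i _ => by rw [sub_smul, one_smul])
    rw [e]
    exact h.cl_sum fun i _ => h.cl_smul (hqc i) (by have := hc1 m i; linarith)
  obtain ⟨ψ, T, hψ, hT⟩ := hLop n C Γ h ⊤ (fun m => x (φ m)) γ t xi hγ ht hlim (by
    intro u _
    obtain ⟨M', hM', ha, hb⟩ := absorb_two h.toPCone hf u
    refine ⟨M', fun m => ⟨?_, ?_⟩⟩
    · have e : M' • x (φ m) - u = M' • (x (φ m) - ∑ i, q i) + (M' • (∑ i, q i) - u) := by
        rw [smul_sub]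
        abel
      rw [e]
      exact h.cl_add (h.cl_smul (hxf _) hM'.le) (subset_closure ha)
    · have e : M' • x (φ m) + u = M' • (x (φ m) - ∑ i, q i) + (M' • (∑ i, q i) + u) := by
        rw [smul_sub]
        abel
      rw [e]
      exact h.cl_add (h.cl_smul (hxf _) hM'.le) (subset_closure hb))
  set G : ℕ → V n → V n := fun k u => t (ψ k) • act (γ (ψ k)) u with hG
  set κ : ℕ → ℝ := fun k => (φ (ψ k) : ℝ) + 1 with hκ
  have hκpos : ∀ k, 0 < κ k := fun k => by
    rw [hκ]
    positivity
  have hκinf : Tendsto κ atTop atTop := by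
    rw [hκ]
    exact tendsto_atTop_add_const_right _ _
      (tendsto_natCast_atTop_atTop.comp (hφ.tendsto_atTop.comp hψ.tendsto_atTop))
  have hT' : ∀ u, Tendsto (fun k => G k u) atTop (𝓝 (T u)) := fun u => hT u Submodule.mem_top
  have hGx : Tendsto (fun k => G k (x (φ (ψ k)))) atTop (𝓝 xi) := hlim.comp hψ.tendsto_atTop
  have hGsub : ∀ k u v, G k (u - v) = G k u - G k v := fun k u v => by
    rw [hG]
    dsimp only
    rw [CC.act_sub, smul_sub]
  have hGsmul : ∀ k (a : ℝ) u, G k (a • u) = a • G k u := fun k a u => by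
    rw [hG]
    dsimp only
    rw [CC.act_smul, smul_comm]
  have hGC : ∀ k u, G k u ∈ C ↔ u ∈ C := fun k u => h.sact_mem_iff (hγ _) (ht _)
  have hGcl : ∀ k u, G k u ∈ closure C ↔ u ∈ closure C := fun k u =>
    h.sact_cl_iff (hγ _) (ht _)
  have hTcl : ∀ u ∈ closure C, T u ∈ closure C := fun u hu =>
    isClosed_closure.mem_of_tendsto (hT' u) (Eventually.of_forall fun k => (hGcl k u).2 hu)
  have hTcomm : ∀ u, T (s • act g u) = s • act g (T u) := by
    intro u
    have l1 : Tendsto (fun k => s • act g (G k u)) atTop (𝓝 (s • act g (T u))) :=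
      (((CC.act_continuous g).tendsto _).comp (hT' u)).const_smul s
    have l2 := hT' (s • act g u)
    have e : (fun k => s • act g (G k u)) = fun k => G k (s • act g u) := by
      funext k
      rw [hG]
      dsimp only
      rw [CC.act_smul, ← CC.act_mul, ← hγg, CC.act_mul, CC.act_smul, smul_comm]
    rw [e] at l1
    exact tendsto_nhds_unique l2 l1
  obtain ⟨B, hB, hBn⟩ := h.normal
  have hTi : ∀ i, i ≠ j → T (q i) = 0 := by
    intro i hij
    have h0 : Tendsto (fun k => G k (q i)) atTop (𝓝 0) := by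
      refine squeeze_zero_norm (a := fun k => (κ k)⁻¹ * (B * ‖G k (x (φ (ψ k)))‖)) ?_ ?_
      · intro k
        have h1 : x (φ (ψ k)) - κ k • q i ∈ closure C := by
          have e : x (φ (ψ k)) - κ k • q i =
              ∑ l ∈ Finset.univ.erase i, c (φ (ψ k)) l • q l := by
            have e1 : x (φ (ψ k)) = c (φ (ψ k)) i • q i +
                ∑ l ∈ Finset.univ.erase i, c (φ (ψ k)) l • q l :=
              (Finset.add_sum_erase Finset.univ (fun l => c (φ (ψ k)) l • q l)
                (Finset.mem_univ i)).symm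
            have e2 : c (φ (ψ k)) i = κ k := by
              rw [hc, hκ]
              dsimp only
              rw [if_neg hij]
            rw [e1, e2, add_sub_cancel_left]
          rw [e]
          exact h.cl_sum fun l _ => h.cl_smul (hqc l) (hcpos _ _).le
        have h2 : G k (x (φ (ψ k))) - κ k • G k (q i) ∈ closure C := by
          rw [← hGsmul, ← hGsub, hGcl]
          exact h1
        have h3 : κ k • G k (q i) ∈ closure C :=
          h.cl_smul ((hGcl k _).2 (hqc i)) (hκpos k).le
        have h4 := hBn _ _ h3 h2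
        rw [norm_smul, Real.norm_of_nonneg (hκpos k).le] at h4
        have h5 := mul_le_mul_of_nonneg_left h4 (inv_pos.2 (hκpos k)).le
        rw [← mul_assoc, inv_mul_cancel₀ (hκpos k).ne', one_mul] at h5
        exact h5
      · have l1 : Tendsto (fun k => (κ k)⁻¹ * (B * ‖G k (x (φ (ψ k)))‖)) atTop
            (𝓝 (0 * (B * ‖xi‖))) :=
          (tendsto_inv_atTop_zero.comp hκinf).mul (hGx.norm.const_mul B)
        rwa [zero_mul] at l1
    exact tendsto_nhds_unique (hT' (q i)) h0
  have hbd : ∑ i ∈ Finset.univ.erase j, q i ∉ C := by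
    have e : ∑ i ∈ Finset.univ.erase j, q i = ∑ i, (if i = j then (0 : ℝ) else 1) • q i := by
      rw [← Finset.add_sum_erase Finset.univ (fun i => (if i = j then (0 : ℝ) else 1) • q i)
        (Finset.mem_univ j)]
      rw [if_pos rfl, zero_smul, zero_add]
      refine Finset.sum_congr rfl (fun i hi => ?_)
      rw [if_neg (Finset.ne_of_mem_erase hi), one_smul]
    rw [e]
    refine hpes.1.bd _ (fun i => ?_) ⟨j, if_pos rfl⟩
    split_ifs
    · exact le_refl _
    · exact zero_le_one
  have hTj0 : T (q j) ≠ 0 := by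
    intro h0
    have l1 : Tendsto (fun k => κ k • G k (∑ i ∈ Finset.univ.erase j, q i)) atTop
        (𝓝 (xi - T (q j))) := by
      have e : (fun k => κ k • G k (∑ i ∈ Finset.univ.erase j, q i)) =
          fun k => G k (x (φ (ψ k))) - G k (q j) := by
        funext k
        rw [← hGsub, ← hGsmul]
        congr 1
        have e1 : x (φ (ψ k)) = c (φ (ψ k)) j • q j +
            ∑ l ∈ Finset.univ.erase j, c (φ (ψ k)) l • q l :=
          (Finset.add_sum_erase Finset.univ (fun l => c (φ (ψ k)) l • q l)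
            (Finset.mem_univ j)).symm
        have e2 : c (φ (ψ k)) j = 1 := by
          rw [hc]
          dsimp only
          rw [if_pos rfl]
        rw [e1, e2, one_smul, add_sub_cancel_left, Finset.smul_sum]
        refine Finset.sum_congr rfl (fun i hi => ?_)
        rw [hc, hκ]
        dsimp only
        rw [if_neg (Finset.ne_of_mem_erase hi)]
      rw [e]
      exact hGx.sub (hT' (q j))
    rw [h0, sub_zero] at l1
    obtain ⟨k, hk⟩ := (l1.eventually (h.isOpen.mem_nhds hxi)).exists
    have hk' : κ k • G k (∑ i ∈ Finset.univ.erase j, q i) ∈ C := hk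
    rw [h.smul_iff (hκpos k), hGC] at hk'
    exact hbd hk'
  have hTjL : T (q j) ∈ LamC C Γ := by
    refine H37.cloF n C Γ h (fun k => G k (q j)) (T (q j)) (fun k => ?_) (hT' (q j)) ?_ hTj0
    · exact h.hul.smul _ (h.hul.act _ (hqH j) _ (hγ _)) _ (ht _)
    · intro hmem
      obtain ⟨k, hk⟩ := ((hT' (q j)).eventually (h.isOpen.mem_nhds hmem)).exists
      have hk' : G k (q j) ∈ C := hk
      rw [hGC] at hk'
      exact h.hul.lamNot _ (hqL j) hk'
  refine ⟨fun k => γ (ψ k), fun k => t (ψ k), T, ⟨fun k => hγ _, fun k => hγg _, fun k => ht _,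
    hT'⟩, hTcl, hTcomm, hTi, hTjL, ?_⟩
  intro u
  obtain ⟨M', hM', ha, hb⟩ := absorb_two h.toPCone hf u
  have hTf : T (∑ i, q i) = T (q j) := by
    rw [map_sum]
    exact Finset.sum_eq_single_of_mem j (Finset.mem_univ j) (fun i _ hij => hTi i hij)
  refine ⟨M', hM', ?_, ?_⟩
  · have h1 := hTcl _ (subset_closure ha)
    rw [map_sub, map_smul, hTf] at h1
    exact h1
  · have h1 := hTcl _ (subset_closure hb)
    rw [map_add, map_smul, hTf] at h1
    exact h1

end Pool.Agent.VMX.H61
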